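import Pool.Agent.Helper30.ProP.Goals

/-!
# Packet F: relativisation to a definable subgroup
-/

set_option autoImplicit false

namespace Pool.Agent.Helper90.ProP2

open Function Pool.Agent.Helper85.ProP Pool.Agent.Helper30.ProP

/-! ### course-of-values recursion -/

/-- the list of the first values of a course-of-values recursion -/
def cov (g : List ℕ → ℕ) : ℕ → List ℕ
  | 0 => []
  | n + 1 => cov g n ++ [g (cov g n)]

lemma cov_length (g : List ℕ → ℕ) (n : ℕ) : (cov g n).length = n := by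
  induction n with
  | zero => rfl
  | succ n ih => simp [cov, ih]

lemma cov_getD (g : List ℕ → ℕ) {i n : ℕ} (h : i < n) : (cov g n).getD i 0 = g (cov g i) := by
  induction n with
  | zero => omega
  | succ n ih =>
    rcases Nat.lt_succ_iff_lt_or_eq.mp h with h' | h'
    · rw [cov, List.getD_append _ _ _ _ (by rw [cov_length]; exact h'), ih h']
    · subst h'
      rw [cov, List.getD_append_right _ _ _ _ (by rw [cov_length])]
      simp [cov_length]

lemma cov_primrec {g : List ℕ → ℕ} (hg : Primrec g) : Primrec (cov g) := by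
  have h2 : Primrec₂ (fun (_ : ℕ) (l : List ℕ) => l ++ [g l]) :=
    Primrec.list_concat.comp Primrec.snd (hg.comp Primrec.snd)
  have := Primrec.nat_rec₁ ([] : List ℕ) h2
  refine this.of_eq fun n => ?_
  induction n with
  | zero => rfl
  | succ n ih => simp only [cov]; rw [← ih]

lemma lt_pair {k r : ℕ} (hk : 1 ≤ k) : r < Nat.pair k r := by
  unfold Nat.pair
  split
  · nlinarith
  · nlinarith

/-! ### shifting the variables of a term -/

/-- shift all variables by one -/
def sh : Tm → Tm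
  | Tm.one => Tm.one
  | Tm.var n => Tm.var (n + 1)
  | Tm.mul s t => Tm.mul (sh s) (sh t)
  | Tm.inv s => Tm.inv (sh s)

/-- one step of the recursion for terms -/
def gT (l : List ℕ) : ℕ :=
  if l.length.unpair.1 = 0 then l.length
  else if l.length.unpair.1 = 1 then Nat.pair 1 (l.length.unpair.2 + 1)
  else if l.length.unpair.1 = 2 then
    Nat.pair 2 (Nat.pair (l.getD l.length.unpair.2.unpair.1 0)
      (l.getD l.length.unpair.2.unpair.2 0))
  else Nat.pair 3 (l.getD l.length.unpair.2 0)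

/-- the function on codes of terms -/
def ST (n : ℕ) : ℕ := gT (cov gT n)

lemma gT_primrec : Primrec gT := by
  have hl : Primrec (fun l : List ℕ => l.length) := Primrec.list_length
  have h1 : Primrec (fun l : List ℕ => l.length.unpair.1) :=
    Primrec.fst.comp (Primrec.unpair.comp hl)
  have h2 : Primrec (fun l : List ℕ => l.length.unpair.2) :=
    Primrec.snd.comp (Primrec.unpair.comp hl)
  have h21 : Primrec (fun l : List ℕ => l.length.unpair.2.unpair.1) :=
    Primrec.fst.comp (Primrec.unpair.comp h2)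
  have h22 : Primrec (fun l : List ℕ => l.length.unpair.2.unpair.2) :=
    Primrec.snd.comp (Primrec.unpair.comp h2)
  have hg : ∀ {f : List ℕ → ℕ}, Primrec f → Primrec (fun l : List ℕ => l.getD (f l) 0) :=
    fun hf => (Primrec.list_getD 0).comp Primrec.id hf
  refine Primrec.ite (Primrec.eq.comp h1 (Primrec.const 0)) hl ?_
  refine Primrec.ite (Primrec.eq.comp h1 (Primrec.const 1))
    (Primrec₂.natPair.comp (Primrec.const 1) (Primrec.succ.comp h2)) ?_
  refine Primrec.ite (Primrec.eq.comp h1 (Primrec.const 2))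
    (Primrec₂.natPair.comp (Primrec.const 2) (Primrec₂.natPair.comp (hg h21) (hg h22))) ?_
  exact Primrec₂.natPair.comp (Primrec.const 3) (hg h2)

lemma ST_primrec : Primrec ST := gT_primrec.comp (cov_primrec gT_primrec)

lemma ST_code (t : Tm) : ST t.code = (sh t).code := by
  induction t with
  | one =>
    show gT (cov gT (Nat.pair 0 0)) = _
    unfold gT
    simp [cov_length, sh, Tm.code]
  | var n =>
    show gT (cov gT (Nat.pair 1 n)) = _
    unfold gT
    simp [cov_length, sh, Tm.code]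
  | mul s t ihs iht =>
    show gT (cov gT (Nat.pair 2 (Nat.pair s.code t.code))) = _
    have e1 : s.code < Nat.pair 2 (Nat.pair s.code t.code) :=
      lt_of_le_of_lt (Nat.left_le_pair _ _) (lt_pair (by norm_num))
    have e2 : t.code < Nat.pair 2 (Nat.pair s.code t.code) :=
      lt_of_le_of_lt (Nat.right_le_pair _ _) (lt_pair (by norm_num))
    rw [gT, cov_length, Nat.unpair_pair]
    simp only [Nat.unpair_pair]
    rw [cov_getD _ e1, cov_getD _ e2]
    rw [show gT (cov gT s.code) = _ from ihs, show gT (cov gT t.code) = _ from iht]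
    simp [sh, Tm.code]
  | inv s ih =>
    show gT (cov gT (Nat.pair 3 s.code)) = _
    have e1 : s.code < Nat.pair 3 s.code := lt_pair (by norm_num)
    rw [gT, cov_length, Nat.unpair_pair]
    simp only
    rw [cov_getD _ e1]
    rw [show gT (cov gT s.code) = _ from ih]
    simp [sh, Tm.code]

/-! ### relativisation -/

/-- the formula `x_n ∈ W`, for `n ≥ 1` -/
def Win (θ : Fm) (n : ℕ) : Fm :=
  Fm.neg (Fm.all 0 (Fm.neg (Fm.and (Fm.eq (Tm.var 0) (Tm.var n)) θ)))

/-- relativisation, with all variables shifted by one -/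
def rel (θ : Fm) : Fm → Fm
  | Fm.eq s t => Fm.eq (sh s) (sh t)
  | Fm.neg φ => Fm.neg (rel θ φ)
  | Fm.and φ ψ => Fm.and (rel θ φ) (rel θ ψ)
  | Fm.all n φ => Fm.all (n + 1) (Fm.neg (Fm.and (Win θ (n + 1)) (Fm.neg (rel θ φ))))

/-- the code of `Win` -/
def cWin (c m : ℕ) : ℕ :=
  Nat.pair 1 (Nat.pair 3 (Nat.pair 0 (Nat.pair 1 (Nat.pair 2 (Nat.pair
    (Nat.pair 0 (Nat.pair (Nat.pair 1 0) (Nat.pair 1 m))) c)))))

lemma Win_code (θ : Fm) (n : ℕ) : (Win θ n).code = cWin θ.code n := rfl

/-- one step of the recursion for formulas -/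
def gF (c : ℕ) (l : List ℕ) : ℕ :=
  if l.length.unpair.1 = 0 then
    Nat.pair 0 (Nat.pair (ST l.length.unpair.2.unpair.1) (ST l.length.unpair.2.unpair.2))
  else if l.length.unpair.1 = 1 then Nat.pair 1 (l.getD l.length.unpair.2 0)
  else if l.length.unpair.1 = 2 then
    Nat.pair 2 (Nat.pair (l.getD l.length.unpair.2.unpair.1 0)
      (l.getD l.length.unpair.2.unpair.2 0))
  else Nat.pair 3 (Nat.pair (l.length.unpair.2.unpair.1 + 1) (Nat.pair 1 (Nat.pair 2
    (Nat.pair (cWin c (l.length.unpair.2.unpair.1 + 1))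
      (Nat.pair 1 (l.getD l.length.unpair.2.unpair.2 0))))))

/-- the function on codes of formulas -/
def SF (c n : ℕ) : ℕ := gF c (cov (gF c) n)

lemma gF_primrec (c : ℕ) : Primrec (gF c) := by
  have hl : Primrec (fun l : List ℕ => l.length) := Primrec.list_length
  have h1 : Primrec (fun l : List ℕ => l.length.unpair.1) :=
    Primrec.fst.comp (Primrec.unpair.comp hl)
  have h2 : Primrec (fun l : List ℕ => l.length.unpair.2) :=
    Primrec.snd.comp (Primrec.unpair.comp hl)
  have h21 : Primrec (fun l : List ℕ => l.length.unpair.2.unpair.1) :=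
    Primrec.fst.comp (Primrec.unpair.comp h2)
  have h22 : Primrec (fun l : List ℕ => l.length.unpair.2.unpair.2) :=
    Primrec.snd.comp (Primrec.unpair.comp h2)
  have hg : ∀ {f : List ℕ → ℕ}, Primrec f → Primrec (fun l : List ℕ => l.getD (f l) 0) :=
    fun hf => (Primrec.list_getD 0).comp Primrec.id hf
  have P : ∀ {a b : List ℕ → ℕ}, Primrec a → Primrec b →
      Primrec (fun l : List ℕ => Nat.pair (a l) (b l)) :=
    fun ha hb => Primrec₂.natPair.comp ha hb
  have C : ∀ m : ℕ, Primrec (fun _ : List ℕ => m) := fun m => Primrec.const m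
  have S21 : Primrec (fun l : List ℕ => l.length.unpair.2.unpair.1 + 1) :=
    Primrec.succ.comp h21
  refine Primrec.ite (Primrec.eq.comp h1 (Primrec.const 0))
    (P (C 0) (P (ST_primrec.comp h21) (ST_primrec.comp h22))) ?_
  refine Primrec.ite (Primrec.eq.comp h1 (Primrec.const 1)) (P (C 1) (hg h2)) ?_
  refine Primrec.ite (Primrec.eq.comp h1 (Primrec.const 2))
    (P (C 2) (P (hg h21) (hg h22))) ?_
  refine P (C 3) (P S21 (P (C 1) (P (C 2) (P ?_ (P (C 1) (hg h22))))))
  exact P (C 1) (P (C 3) (P (C 0) (P (C 1) (P (C 2) (P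
    (P (C 0) (P (P (C 1) (C 0)) (P (C 1) S21))) (C c))))))

lemma SF_primrec (c : ℕ) : Primrec (SF c) := (gF_primrec c).comp (cov_primrec (gF_primrec c))

lemma SF_code (θ φ : Fm) : SF θ.code φ.code = (rel θ φ).code := by
  induction φ with
  | eq s t =>
    show gF θ.code (cov (gF θ.code) (Nat.pair 0 (Nat.pair s.code t.code))) = _
    rw [gF, cov_length, Nat.unpair_pair]
    simp [ST_code, rel, Fm.code]
  | neg φ ih =>
    show gF θ.code (cov (gF θ.code) (Nat.pair 1 φ.code)) = _
    have e1 : φ.code < Nat.pair 1 φ.code := lt_pair (by norm_num)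
    rw [gF, cov_length, Nat.unpair_pair]
    simp only
    rw [cov_getD _ e1]
    rw [show gF θ.code (cov (gF θ.code) φ.code) = _ from ih]
    simp [rel, Fm.code]
  | and φ ψ ih1 ih2 =>
    show gF θ.code (cov (gF θ.code) (Nat.pair 2 (Nat.pair φ.code ψ.code))) = _
    have e1 : φ.code < Nat.pair 2 (Nat.pair φ.code ψ.code) :=
      lt_of_le_of_lt (Nat.left_le_pair _ _) (lt_pair (by norm_num))
    have e2 : ψ.code < Nat.pair 2 (Nat.pair φ.code ψ.code) :=
      lt_of_le_of_lt (Nat.right_le_pair _ _) (lt_pair (by norm_num))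
    rw [gF, cov_length, Nat.unpair_pair]
    simp only [Nat.unpair_pair]
    rw [cov_getD _ e1, cov_getD _ e2]
    rw [show gF θ.code (cov (gF θ.code) φ.code) = _ from ih1,
      show gF θ.code (cov (gF θ.code) ψ.code) = _ from ih2]
    simp [rel, Fm.code]
  | all n φ ih =>
    show gF θ.code (cov (gF θ.code) (Nat.pair 3 (Nat.pair n φ.code))) = _
    have e2 : φ.code < Nat.pair 3 (Nat.pair n φ.code) :=
      lt_of_le_of_lt (Nat.right_le_pair _ _) (lt_pair (by norm_num))
    rw [gF, cov_length, Nat.unpair_pair]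
    simp only [Nat.unpair_pair]
    rw [cov_getD _ e2]
    rw [show gF θ.code (cov (gF θ.code) φ.code) = _ from ih]
    simp [rel, Fm.code, Win_code]

lemma sh_vars (t : Tm) : ∀ i ∈ (sh t).vars, ∃ j ∈ t.vars, i = j + 1 := by
  induction t with
  | one => simp [sh, Tm.vars]
  | var n => simp [sh, Tm.vars]
  | mul s t ihs iht =>
    intro i hi
    simp only [sh, Tm.vars, Finset.mem_union] at hi ⊢
    rcases hi with hi | hi
    · obtain ⟨j, hj, e⟩ := ihs i hi
      exact ⟨j, Or.inl hj, e⟩
    · obtain ⟨j, hj, e⟩ := iht i hi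
      exact ⟨j, Or.inr hj, e⟩
  | inv s ih => simpa [sh, Tm.vars] using ih

lemma rel_fv (θ : Fm) (hθ : ∀ i ∈ θ.fv, i < 1) (φ : Fm) :
    ∀ i ∈ (rel θ φ).fv, ∃ j ∈ φ.fv, i = j + 1 := by
  induction φ with
  | eq s t =>
    intro i hi
    simp only [rel, Fm.fv, Finset.mem_union] at hi ⊢
    rcases hi with hi | hi
    · obtain ⟨j, hj, e⟩ := sh_vars s i hi
      exact ⟨j, Or.inl hj, e⟩
    · obtain ⟨j, hj, e⟩ := sh_vars t i hi
      exact ⟨j, Or.inr hj, e⟩
  | neg φ ih => simpa [rel, Fm.fv] using ih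
  | and φ ψ ih1 ih2 =>
    intro i hi
    simp only [rel, Fm.fv, Finset.mem_union] at hi ⊢
    rcases hi with hi | hi
    · obtain ⟨j, hj, e⟩ := ih1 i hi
      exact ⟨j, Or.inl hj, e⟩
    · obtain ⟨j, hj, e⟩ := ih2 i hi
      exact ⟨j, Or.inr hj, e⟩
  | all n φ ih =>
    intro i hi
    simp only [rel, Win, Fm.fv, Tm.vars, Finset.mem_erase, Finset.mem_union,
      Finset.mem_singleton] at hi ⊢
    obtain ⟨h1, h2⟩ := hi
    rcases h2 with ⟨h3, h4⟩ | h2
    · rcases h4 with (h4 | h4) | h4
      · omega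
      · exact absurd h4 h1
      · have := hθ i h4
        omega
    · obtain ⟨j, hj, e⟩ := ih i h2
      exact ⟨j, ⟨by omega, hj⟩, e⟩

section

variable {G : Type*} [Group G] (W : Subgroup G)

lemma sh_eval (t : Tm) (v : ℕ → W) (v' : ℕ → G) (h : ∀ i, v' (i + 1) = v i) :
    (sh t).eval v' = (t.eval v : W) := by
  induction t with
  | one => rfl
  | var n => exact h n
  | mul s t ihs iht => simp [sh, Tm.eval, ihs, iht]
  | inv s ih => simp [sh, Tm.eval, ih]

lemma Win_sat (θ : Fm) (hθ : ∀ v : ℕ → G, θ.Sat v ↔ v 0 ∈ W) (n : ℕ) (v : ℕ → G) :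
    (Win θ (n + 1)).Sat v ↔ v (n + 1) ∈ W := by
  simp only [Win, Fm.Sat, Tm.eval, hθ, update_self]
  have hu : ∀ a, update v 0 a (n + 1) = v (n + 1) := fun a => update_of_ne (by omega) _ _
  simp only [hu]
  constructor
  · intro h
    by_contra hc
    apply h
    intro a ⟨h1, h2⟩
    rw [h1] at h2
    exact hc h2
  · intro h hc
    exact hc (v (n + 1)) ⟨rfl, h⟩

lemma rel_sat (θ : Fm) (hθ : ∀ v : ℕ → G, θ.Sat v ↔ v 0 ∈ W) (φ : Fm) (v : ℕ → W) (v' : ℕ → G)
    (h : ∀ i, v' (i + 1) = v i) : (rel θ φ).Sat v' ↔ φ.Sat v := by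
  induction φ generalizing v v' with
  | eq s t =>
    simp only [rel, Fm.Sat]
    rw [sh_eval W s v v' h, sh_eval W t v v' h]
    exact Subtype.coe_inj
  | neg φ ih =>
    simp only [rel, Fm.Sat]
    rw [ih v v' h]
  | and φ ψ ih1 ih2 =>
    simp only [rel, Fm.Sat]
    rw [ih1 v v' h, ih2 v v' h]
  | all n φ ih =>
    have key : ∀ b : W, (rel θ φ).Sat (update v' (n + 1) (b : G)) ↔ φ.Sat (update v n b) := by
      intro b
      refine ih _ _ fun i => ?_
      by_cases hi : i = n
      · subst hi; simp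
      · rw [update_of_ne (by omega), update_of_ne hi, h]
    simp only [rel, Fm.Sat]
    constructor
    · intro H b
      rw [← key b]
      by_contra hc
      refine H (b : G) ⟨?_, hc⟩
      rw [Win_sat W θ hθ, update_self]
      exact b.2
    · rintro H a ⟨h1, h2⟩
      rw [Win_sat W θ hθ, update_self] at h1
      exact h2 ((key ⟨a, h1⟩).mpr (H ⟨a, h1⟩))

end

/-- packet F: definable subgroups inherit decidability -/
theorem stmtRel : StmtRel := by
  intro G _ W hW ⟨f, hf, hf'⟩
  obtain ⟨θ, h1, h2⟩ := hW.df 1 (Nat.zero_le 1) (fun v => v 0) (TF.last 0)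
  refine ⟨fun n => f (SF θ.code n), hf.comp (SF_primrec θ.code).to_comp, ?_⟩
  intro φ hφ
  have hs : (rel θ φ).fv = ∅ := by
    rw [Finset.eq_empty_iff_forall_notMem]
    intro i hi
    obtain ⟨j, hj, -⟩ := rel_fv θ h1 φ i hi
    rw [hφ] at hj
    simp at hj
  have h3 := hf' (rel θ φ) hs
  rw [← SF_code] at h3
  rw [h3]
  constructor
  · intro H v
    exact (rel_sat W θ h2 φ v (fun i => (v (i - 1) : G)) (fun i => by simp)).mp (H _)
  · intro H v'
    rw [(rel θ φ).sat_congr v' (fun _ => (1 : G)) (by rw [hs]; simp)]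
    exact (rel_sat W θ h2 φ (fun _ => 1) (fun _ => 1) (fun i => by simp)).mpr (H _)

end Pool.Agent.Helper90.ProP2
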